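import Pool.Agent.Helper41.LD6.Defs
import Pool.Agent.Helper68.LD.WB1
import Pool.Agent.Helper34.LD.WA

/-!
# Project LD6, block E1: the martingale of one functional (helper23, adapted from Helper44.LD4.A1 and Helper68.LD4.A2)
-/

set_option autoImplicit false

namespace Pool.Agent.Helper23.LD6

open Set MeasureTheory Filter Topology
open Pool.Agent.Helper41.LD (av var)
open Pool.Agent.Helper41.LD4 (A M W Pot NB NBg)
open Pool.Agent.Helper41.LD6
open Pool.Agent.Helper34.LD (ii_of_bdd av_abs_le)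
open Pool.Agent.Helper68.LD (child_mem)

variable {G : ℕ → ℝ → ℝ} {w η : ℝ} {H n : ℕ} {a ℓ : ℝ}

theorem A_le_one (hw : Wq G w η H n a ℓ) (j : ℕ) : |A G j a ℓ| ≤ 1 := av_abs_le (hw.bdd j) a hw.pos

theorem A_zero (hw : Wq G w η H n a ℓ) {j : ℕ} (hj : H ≤ j) (a' ℓ' : ℝ) : A G j a' ℓ' = 0 := by
  unfold A av
  have h : ∫ x in a'..(a' + ℓ'), G j x = 0 := by
    simp only [hw.zero j hj, intervalIntegral.integral_zero]
  rw [h, zero_div]

theorem A_le (hw : Wq G w η H n a ℓ) {j : ℕ} (hj : n ≤ j) : |A G j a ℓ| ≤ w * η := by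
  unfold A av
  rw [abs_div, abs_of_pos hw.pos, div_le_iff₀ hw.pos]
  exact hw.tail j hj

theorem M_eq' (hw : Wq G w η H n a ℓ) (a' ℓ' : ℝ) : M G a' ℓ' = ∑ j ∈ Finset.range H, A G j a' ℓ' := by
  unfold M
  refine tsum_eq_sum fun j hj => ?_
  rw [Finset.mem_range, not_lt] at hj
  exact A_zero hw hj a' ℓ'

theorem M_eq (hw : Wq G w η H n a ℓ) : M G a ℓ = ∑ j ∈ Finset.range H, A G j a ℓ := M_eq' hw a ℓ

theorem M_tail (hw : Wq G w η H n a ℓ) {m' : ℕ} (hm : n ≤ m') : |M G a ℓ - ∑ j ∈ Finset.range m', A G j a ℓ| ≤ w := by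
  rw [M_eq hw]
  rcases le_total m' H with h | h
  · rw [← Finset.sum_range_add_sum_Ico _ h, add_sub_cancel_left]
    have h1 : |∑ j ∈ Finset.Ico m' H, A G j a ℓ| ≤ ((H - m' : ℕ) : ℝ) * (w * η) := by
      refine (Finset.abs_sum_le_sum_abs _ _).trans ?_
      refine (Finset.sum_le_sum fun j hj => A_le hw (j := j) ?_).trans (le_of_eq ?_)
      · rw [Finset.mem_Ico] at hj
        omega
      · rw [Finset.sum_const, Nat.card_Ico, nsmul_eq_mul]
    have h2 : ((H - m' : ℕ) : ℝ) ≤ ((H : ℝ) + 1) ^ 2 := by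
      have e1 : ((H - m' : ℕ) : ℝ) ≤ H := by exact_mod_cast Nat.sub_le H m'
      have e2 : (0 : ℝ) ≤ H := Nat.cast_nonneg H
      nlinarith
    calc _ ≤ ((H - m' : ℕ) : ℝ) * (w * η) := h1
      _ ≤ ((H : ℝ) + 1) ^ 2 * (w * η) := mul_le_mul_of_nonneg_right h2 (mul_nonneg hw.w0 hw.η0)
      _ = w * (η * ((H : ℝ) + 1) ^ 2) := by ring
      _ ≤ w * 1 := mul_le_mul_of_nonneg_left hw.ηH hw.w0
      _ = w := mul_one w
  · rw [← Finset.sum_range_add_sum_Ico _ h, Finset.sum_eq_zero (s := Finset.Ico H m')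
      (fun j hj => A_zero hw (Finset.mem_Ico.1 hj).1 a ℓ), add_zero, sub_self, abs_zero]
    exact hw.w0

theorem M_le (hw : Wq G w η H n a ℓ) : |M G a ℓ| ≤ n + w := by
  have h1 := M_tail hw (le_refl n)
  have h2 : |∑ j ∈ Finset.range n, A G j a ℓ| ≤ n := by
    refine (Finset.abs_sum_le_sum_abs _ _).trans ((Finset.sum_le_sum fun j _ => A_le_one hw j).trans (le_of_eq ?_))
    simp
  have h4 : M G a ℓ = (M G a ℓ - ∑ j ∈ Finset.range n, A G j a ℓ) + ∑ j ∈ Finset.range n, A G j a ℓ := by ring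
  rw [h4]
  refine (abs_add_le _ _).trans ?_
  linarith

theorem A_children (hw : Wq G w η H n a ℓ) (j : ℕ) {B : ℕ} (hB : 1 ≤ B) :
    ∑ b ∈ Finset.range B, A G j (a + b * (ℓ / B)) (ℓ / B) = B * A G j a ℓ := by
  have hB0 : (0 : ℝ) < B := by exact_mod_cast hB
  have hℓ := hw.pos
  unfold A av
  rw [← Finset.sum_div]
  have h1 := intervalIntegral.sum_integral_adjacent_intervals (μ := volume) (f := G j) (a := fun b : ℕ => a + b * (ℓ / B)) (n := B)
    fun b _ => ii_of_bdd (hw.meas j) (hw.bdd j) _ _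
  have h2 : ∑ b ∈ Finset.range B, ∫ x in (a + b * (ℓ / B))..(a + b * (ℓ / B) + ℓ / B), G j x = ∫ x in a..(a + ℓ), G j x := by
    have h3 : ∀ b : ℕ, a + (b : ℝ) * (ℓ / B) + ℓ / B = a + ((b + 1 : ℕ) : ℝ) * (ℓ / B) := by
      intro b
      push_cast
      ring
    simp_rw [h3]
    rw [h1]
    congr 1
    · simp
    · field_simp
  rw [h2]
  field_simp

theorem M_children (hw : Wq G w η H n a ℓ) {n' B : ℕ} (hB : 1 ≤ B) (hw' : ∀ b < B, Wq G w η H n' (a + b * (ℓ / B)) (ℓ / B)) :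
    ∑ b ∈ Finset.range B, M G (a + b * (ℓ / B)) (ℓ / B) = B * M G a ℓ := by
  have _ := hw'
  rw [M_eq hw, Finset.mul_sum]
  have h1 : ∀ b ∈ Finset.range B, M G (a + b * (ℓ / B)) (ℓ / B) = ∑ j ∈ Finset.range H, A G j (a + b * (ℓ / B)) (ℓ / B) :=
    fun b _ => M_eq' hw _ _
  rw [Finset.sum_congr rfl h1, Finset.sum_comm]
  exact Finset.sum_congr rfl fun j _ => A_children hw j hB

theorem A_const {r : ℕ} (h : NB G n r a ℓ) {j : ℕ} (hj : j + r < n) {a' ℓ' : ℝ} (ha : a ≤ a') (hℓ' : 0 < ℓ')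
    (he : a' + ℓ' ≤ a + ℓ) : A G j a' ℓ' = G j a := by
  unfold A av
  have h1 : ∫ x in a'..(a' + ℓ'), G j x = ∫ _x in a'..(a' + ℓ'), G j a := by
    refine intervalIntegral.integral_congr fun x hx => ?_
    rw [uIcc_of_le (by linarith)] at hx
    exact h j hj x ⟨ha.trans hx.1, hx.2.trans he⟩
  rw [h1, intervalIntegral.integral_const, add_sub_cancel_left, smul_eq_mul]
  field_simp

theorem sum_sub_M (hw : Wq G w η H n a ℓ) {r : ℕ} (h : NB G n r a ℓ) {x : ℝ} (hx : x ∈ Icc a (a + ℓ)) :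
    |∑ j ∈ Finset.range n, G j x - M G a ℓ| ≤ 2 * r + w := by
  have hℓ := hw.pos
  have h1 := M_tail hw (le_refl n)
  have h4 : |∑ j ∈ Finset.range n, (G j x - A G j a ℓ)| ≤ 2 * r := by
    refine (Finset.abs_sum_le_sum_abs _ _).trans ?_
    have h5 : ∀ j ∈ Finset.range n, |G j x - A G j a ℓ| ≤ if n ≤ j + r then 2 else 0 := by
      intro j _
      by_cases hj : n ≤ j + r
      · rw [if_pos hj]
        refine (abs_sub _ _).trans ?_
        have h6 := hw.bdd j x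
        have h7 := A_le_one hw j
        linarith
      · rw [if_neg hj, h j (by omega) x hx, A_const h (by omega) le_rfl hℓ le_rfl, sub_self, abs_zero]
    refine (Finset.sum_le_sum h5).trans ?_
    rw [← Finset.sum_filter, Finset.sum_const, nsmul_eq_mul]
    have h6 : ((Finset.range n).filter fun j => n ≤ j + r).card ≤ r := by
      have h7 : (Finset.range n).filter (fun j => n ≤ j + r) ⊆ Finset.Ico (n - r) n := by
        intro j hj
        rw [Finset.mem_filter, Finset.mem_range] at hj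
        rw [Finset.mem_Ico]
        omega
      refine (Finset.card_le_card h7).trans ?_
      rw [Nat.card_Ico]
      omega
    have h8 : (((Finset.range n).filter fun j => n ≤ j + r).card : ℝ) ≤ r := by exact_mod_cast h6
    linarith
  have h5 : ∑ j ∈ Finset.range n, G j x - M G a ℓ =
      ∑ j ∈ Finset.range n, (G j x - A G j a ℓ) - (M G a ℓ - ∑ j ∈ Finset.range n, A G j a ℓ) := by
    rw [Finset.sum_sub_distrib]
    ring
  rw [h5]
  refine (abs_sub _ _).trans ?_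
  linarith

/-- an increment of one average -/
noncomputable def dA (G : ℕ → ℝ → ℝ) (j : ℕ) (a ℓ : ℝ) (B b : ℕ) : ℝ :=
  A G j (a + b * (ℓ / B)) (ℓ / B) - A G j a ℓ

/-- the difference of the tails -/
noncomputable def dT (G : ℕ → ℝ → ℝ) (m : ℕ) (a ℓ : ℝ) (B b : ℕ) : ℝ :=
  (M G (a + b * (ℓ / B)) (ℓ / B) - ∑ j ∈ Finset.range m, A G j (a + b * (ℓ / B)) (ℓ / B)) -
    (M G a ℓ - ∑ j ∈ Finset.range m, A G j a ℓ)

theorem inc_eq {L r : ℕ} (hℓ : 0 < ℓ) (h : NB G n r a ℓ) {B b : ℕ} (hb : b < B) :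
    M G (a + b * (ℓ / B)) (ℓ / B) - M G a ℓ =
      ∑ j ∈ Finset.Ico (n - r) (n + L), dA G j a ℓ B b + dT G (n + L) a ℓ B b := by
  obtain ⟨h1, h2, h3⟩ := child_mem (a := a) hℓ hb
  have hz : ∑ j ∈ Finset.range (n - r), dA G j a ℓ B b = 0 := by
    refine Finset.sum_eq_zero fun j hj => ?_
    have hj' : j + r < n := by
      have := Finset.mem_range.mp hj
      omega
    unfold dA
    rw [A_const h hj' h1 h2 h3, A_const h hj' le_rfl hℓ le_rfl, sub_self]
  have hs : ∑ j ∈ Finset.range (n + L), dA G j a ℓ B b =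
      ∑ j ∈ Finset.Ico (n - r) (n + L), dA G j a ℓ B b := by
    rw [← Finset.sum_range_add_sum_Ico _ (show n - r ≤ n + L by omega), hz, zero_add]
  rw [← hs]
  unfold dA dT
  rw [Finset.sum_sub_distrib]
  ring

theorem dT_le (hw : Wq G w η H n a ℓ) {L B b : ℕ} (hw' : Wq G w η H (n + L) (a + b * (ℓ / B)) (ℓ / B)) :
    |dT G (n + L) a ℓ B b| ≤ 2 * w := by
  unfold dT
  have h1 := M_tail hw' (le_refl (n + L))
  have h2 := M_tail hw (Nat.le_add_right n L)
  refine (abs_sub _ _).trans ?_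
  linarith

theorem dA_le (hw : Wq G w η H n a ℓ) (j : ℕ) {B b : ℕ} (hb : b < B) : |dA G j a ℓ B b| ≤ 2 := by
  unfold dA
  obtain ⟨h1, h2, h3⟩ := child_mem (a := a) hw.pos hb
  have h4 : |A G j (a + b * (ℓ / B)) (ℓ / B)| ≤ 1 := av_abs_le (hw.bdd j) _ h2
  have h5 := A_le_one hw j
  refine (abs_sub _ _).trans ?_
  linarith

/-- increments -/
theorem M_inc (hw : Wq G w η H n a ℓ) {r L B b : ℕ} (h : NB G n r a ℓ) (hB : 1 ≤ B) (hb : b < B)
    (hw' : Wq G w η H (n + L) (a + b * (ℓ / B)) (ℓ / B)) :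
    |M G (a + b * (ℓ / B)) (ℓ / B) - M G a ℓ| ≤ 2 * L + 2 * r + 2 * w := by
  have _ := hB
  rw [inc_eq (n := n) (L := L) hw.pos h hb]
  have h1 := dT_le hw hw'
  have h3 : |∑ j ∈ Finset.Ico (n - r) (n + L), dA G j a ℓ B b| ≤ 2 * (L + r) := by
    refine (Finset.abs_sum_le_sum_abs _ _).trans ?_
    refine (Finset.sum_le_sum fun j _ => dA_le hw j hb).trans ?_
    rw [Finset.sum_const, Nat.card_Ico, nsmul_eq_mul]
    have : ((n + L - (n - r) : ℕ) : ℝ) ≤ L + r := by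
      have : n + L - (n - r) ≤ L + r := by omega
      exact_mod_cast this
    linarith
  refine (abs_add_le _ _).trans ((add_le_add h3 h1).trans (le_of_eq ?_))
  ring

end Pool.Agent.Helper23.LD6
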